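import Pool.Agent.helper93.TV.Spec2

/-! TV (MP_29f1cd_al), row LI: linear independence for the elementary Bezout inequality. -/

set_option autoImplicit false

namespace Pool.Agent.helper93.TV

open Polynomial in
/-- restriction to the line `x + τ v` -/
private noncomputable def LI_phi {ι : Type} (x v : ι → ℝ) : MvPolynomial ι ℝ →ₐ[ℝ] ℝ[X] :=
  MvPolynomial.aeval fun i => C (x i) + C (v i) * X

private theorem LI_phi_eval {ι : Type} (x v : ι → ℝ) (p : MvPolynomial ι ℝ) :
    (LI_phi x v p).eval 0 = MvPolynomial.eval x p := by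
  unfold LI_phi
  induction p using MvPolynomial.induction_on with
  | C a => simp
  | add p q hp hq => rw [map_add, Polynomial.eval_add, hp, hq, map_add]
  | mul_X p i hp =>
    rw [map_mul, Polynomial.eval_mul, hp, map_mul, MvPolynomial.aeval_X, MvPolynomial.eval_X]
    simp

private theorem LI_phi_der {ι : Type} [Fintype ι] [DecidableEq ι] (x v : ι → ℝ)
    (p : MvPolynomial ι ℝ) :
    Polynomial.derivative (LI_phi x v p) =
      ∑ j, Polynomial.C (v j) * LI_phi x v (MvPolynomial.pderiv j p) := by
  induction p using MvPolynomial.induction_on with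
  | C a =>
    have h1 : LI_phi x v (MvPolynomial.C a) = Polynomial.C a := by
      unfold LI_phi
      rw [MvPolynomial.aeval_C]
      rfl
    rw [h1, Polynomial.derivative_C]
    symm
    refine Finset.sum_eq_zero fun j _ => ?_
    rw [MvPolynomial.pderiv_C, map_zero, mul_zero]
  | add p q hp hq =>
    rw [map_add, Polynomial.derivative_add, hp, hq, ← Finset.sum_add_distrib]
    refine Finset.sum_congr rfl fun j _ => ?_
    rw [map_add, map_add, mul_add]
  | mul_X p i hp =>
    have h1 : LI_phi x v (MvPolynomial.X i) = Polynomial.C (x i) + Polynomial.C (v i) * Polynomial.X := by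
      unfold LI_phi
      rw [MvPolynomial.aeval_X]
    rw [map_mul, Polynomial.derivative_mul, hp, h1]
    have h2 : Polynomial.derivative (Polynomial.C (x i) + Polynomial.C (v i) * Polynomial.X) =
        Polynomial.C (v i) := by
      rw [Polynomial.derivative_add, Polynomial.derivative_C, Polynomial.derivative_C_mul,
        Polynomial.derivative_X, mul_one, zero_add]
    rw [h2, Finset.sum_mul]
    have h3 : ∀ j, Polynomial.C (v j) * LI_phi x v (MvPolynomial.pderiv j (p * MvPolynomial.X i)) =
        Polynomial.C (v j) * LI_phi x v (MvPolynomial.pderiv j p) *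
          (Polynomial.C (x i) + Polynomial.C (v i) * Polynomial.X) +
        (if j = i then Polynomial.C (v i) * LI_phi x v p else 0) := by
      intro j
      rw [Derivation.leibniz, smul_eq_mul, smul_eq_mul, MvPolynomial.pderiv_X, map_add, map_mul,
        map_mul, h1]
      by_cases hj : j = i
      · subst hj
        rw [if_pos rfl, Pi.single_eq_same, map_one]
        ring
      · rw [if_neg hj, Pi.single_eq_of_ne (Ne.symm hj), map_zero]
        ring
    rw [Finset.sum_congr rfl fun j _ => h3 j, Finset.sum_add_distrib, Finset.sum_ite_eq' Finset.univ i,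
      if_pos (Finset.mem_univ i)]
    ring

/-- the factor `τ` of a polynomial vanishing at `x` -/
private theorem LI_factor {ι : Type} [Fintype ι] [DecidableEq ι] (x v : ι → ℝ)
    (p : MvPolynomial ι ℝ) (hp : MvPolynomial.eval x p = 0) :
    ∃ h : Polynomial ℝ, LI_phi x v p = Polynomial.X * h ∧
      h.eval 0 = ∑ j, MvPolynomial.eval x (MvPolynomial.pderiv j p) * v j := by
  have h1 : (LI_phi x v p).IsRoot 0 := by
    rw [Polynomial.IsRoot, LI_phi_eval, hp]
  obtain ⟨h, hh⟩ := Polynomial.dvd_iff_isRoot.2 h1
  rw [map_zero, sub_zero] at hh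
  refine ⟨h, hh, ?_⟩
  have h2 := LI_phi_der x v p
  have h3 := congrArg (Polynomial.eval 0) h2
  rw [hh, Polynomial.derivative_mul, Polynomial.derivative_X, Polynomial.eval_add,
    Polynomial.eval_mul, Polynomial.eval_mul, Polynomial.eval_X, zero_mul, add_zero,
    Polynomial.eval_one, one_mul, Polynomial.eval_finsetSum] at h3
  rw [h3]
  refine Finset.sum_congr rfl fun j _ => ?_
  rw [Polynomial.eval_mul, Polynomial.eval_C, LI_phi_eval, mul_comm]

/-- coefficients of a polynomial written with exponents in `Fin s` -/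
private theorem LI_coeff {ι : Type} [Fintype ι] [DecidableEq ι] (s : ℕ)
    (a : (ι → Fin s) → ℝ)
    (h : ∀ w : ι → ℝ, ∑ β, a β * ∏ i, w i ^ (β i : ℕ) = 0) (β₀ : ι → Fin s) : a β₀ = 0 := by
  classical
  obtain ⟨F, hF⟩ : ∃ F : (ι → Fin s) → (ι →₀ ℕ), F = fun β =>
    Finsupp.equivFunOnFinite.symm fun i => (β i : ℕ) := ⟨_, rfl⟩
  have hFi : ∀ β i, F β i = (β i : ℕ) := by
    intro β i
    rw [hF]
    rfl
  have hFinj : ∀ β, F β = F β₀ → β = β₀ := by
    intro β hβ
    funext i
    apply Fin.ext
    rw [← hFi, ← hFi, hβ]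
  have hP : (∑ β, MvPolynomial.monomial (F β) (a β) : MvPolynomial ι ℝ) = 0 := by
    apply MvPolynomial.funext
    intro w
    rw [map_sum, map_zero, ← h w]
    refine Finset.sum_congr rfl fun β _ => ?_
    rw [MvPolynomial.eval_monomial, Finsupp.prod_fintype _ _ (fun i => pow_zero _)]
    congr 1
    refine Finset.prod_congr rfl fun i _ => ?_
    rw [hFi]
  have h1 := congrArg (MvPolynomial.coeff (F β₀)) hP
  rw [MvPolynomial.coeff_sum, MvPolynomial.coeff_zero] at h1
  rw [Finset.sum_eq_single β₀] at h1
  · rwa [MvPolynomial.coeff_monomial, if_pos rfl] at h1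
  · intro β _ hβ
    rw [MvPolynomial.coeff_monomial, if_neg (fun h2 => hβ (hFinj β h2))]
  · intro h2
    exact absurd (Finset.mem_univ β₀) h2

theorem LI : LI_stmt := by
  intro ι _ _ g S e s hg hA he
  rw [Fintype.linearIndependent_iff]
  intro c hc
  have main : ∀ n : ℕ, ∀ z : S × (ι → Fin s), ∑ i, (z.2 i : ℕ) = n → c z = 0 := by
    intro n
    induction n using Nat.strong_induction_on with
    | _ n ih =>
      rintro ⟨x₀, β₀⟩ hz
      dsimp only at hz
      have hx₀ : (x₀ : ι → ℝ) ∈ S := x₀.2
      obtain ⟨A, hAdef⟩ : ∃ A : Matrix ι ι ℝ, A = Matrix.of fun i j =>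
        MvPolynomial.eval (x₀ : ι → ℝ) (MvPolynomial.pderiv j (g i)) := ⟨_, rfl⟩
      have hAdet : A.det ≠ 0 := by rw [hAdef]; exact hA x₀ hx₀
      -- the identity for the lowest order part
      have key : ∀ v : ι → ℝ, ∑ β : ι → Fin s,
          (c (x₀, β) * 0 ^ ((∑ i, (β i : ℕ)) - n)) * ∏ i, (A.mulVec v i) ^ (β i : ℕ) = 0 := by
        intro v
        choose h hh hh0 using fun i => LI_factor (x₀ : ι → ℝ) v (g i) (hg x₀ hx₀ i)
        have h1 := congrArg (LI_phi (x₀ : ι → ℝ) v) hc
        rw [map_sum, map_zero] at h1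
        have h2 : ∀ z : S × (ι → Fin s),
            LI_phi (x₀ : ι → ℝ) v (c z • (e z.1 * ∏ i, g i ^ (z.2 i : ℕ))) =
              Polynomial.X ^ n * (Polynomial.C (c z) * (LI_phi (x₀ : ι → ℝ) v (e z.1) *
                (Polynomial.X ^ ((∑ i, (z.2 i : ℕ)) - n) * ∏ i, h i ^ (z.2 i : ℕ)))) := by
          intro z
          by_cases hzn : (∑ i, (z.2 i : ℕ)) < n
          · have h3 : c z = 0 := ih _ hzn z rfl
            rw [h3, zero_smul, map_zero, Polynomial.C_0, zero_mul, mul_zero]
          · rw [map_smul, map_mul, map_prod, Polynomial.smul_eq_C_mul]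
            have h4 : ∏ i, LI_phi (x₀ : ι → ℝ) v (g i ^ (z.2 i : ℕ)) =
                Polynomial.X ^ (∑ i, (z.2 i : ℕ)) * ∏ i, h i ^ (z.2 i : ℕ) := by
              rw [← Finset.prod_pow_eq_pow_sum, ← Finset.prod_mul_distrib]
              refine Finset.prod_congr rfl fun i _ => ?_
              rw [map_pow, hh, mul_pow]
            have h5 : (Polynomial.X : Polynomial ℝ) ^ (∑ i, (z.2 i : ℕ)) =
                Polynomial.X ^ n * Polynomial.X ^ ((∑ i, (z.2 i : ℕ)) - n) := by
              rw [← pow_add]
              congr 1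
              omega
            rw [h4, h5]
            ring
        rw [Finset.sum_congr rfl fun z _ => h2 z, ← Finset.mul_sum] at h1
        have h3 := (mul_eq_zero.1 h1).resolve_left (pow_ne_zero n Polynomial.X_ne_zero)
        have h4 := congrArg (Polynomial.eval 0) h3
        rw [Polynomial.eval_finsetSum, Polynomial.eval_zero, Fintype.sum_prod_type,
          Finset.sum_eq_single x₀] at h4
        · refine Eq.trans ?_ h4
          refine Finset.sum_congr rfl fun β _ => ?_
          rw [Polynomial.eval_mul, Polynomial.eval_mul, Polynomial.eval_mul, Polynomial.eval_C,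
            LI_phi_eval, he, if_pos rfl, Polynomial.eval_pow, Polynomial.eval_X,
            Polynomial.eval_prod, one_mul, mul_assoc]
          have h6 : ∏ i, (A.mulVec v i) ^ (β i : ℕ) = ∏ i, Polynomial.eval 0 (h i ^ (β i : ℕ)) := by
            refine Finset.prod_congr rfl fun i _ => ?_
            rw [Polynomial.eval_pow, hh0, hAdef]
            rfl
          rw [h6]
        · intro x _ hx
          refine Finset.sum_eq_zero fun β _ => ?_
          rw [Polynomial.eval_mul, Polynomial.eval_mul, LI_phi_eval, he, if_neg hx, zero_mul,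
            mul_zero]
        · intro hx
          exact absurd (Finset.mem_univ x₀) hx
      have key2 : ∀ w : ι → ℝ, ∑ β : ι → Fin s,
          (c (x₀, β) * 0 ^ ((∑ i, (β i : ℕ)) - n)) * ∏ i, w i ^ (β i : ℕ) = 0 := by
        intro w
        have h1 := key (A⁻¹.mulVec w)
        rw [Matrix.mulVec_mulVec, Matrix.mul_nonsing_inv A (isUnit_iff_ne_zero.2 hAdet),
          Matrix.one_mulVec] at h1
        exact h1
      have h1 := LI_coeff s _ key2 β₀
      rw [hz, Nat.sub_self, pow_zero, mul_one] at h1
      exact h1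
  intro z
  exact main _ z rfl

end Pool.Agent.helper93.TV
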